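import Pool.Agent.Work.MP_65e34f.Basic

/-!
# MP_65e34f_al, block BC1 (helper20)
-/

set_option autoImplicit false

namespace Pool.FG.helper20

open Matrix

/-- upper triangular elements -/
def upp {K : Type} [Field K] (s : Kˣ) (t : K) : SL K :=
  ⟨!![(s : K), t; 0, ((s⁻¹ : Kˣ) : K)], by
    rw [Matrix.det_fin_two_of, mul_zero, sub_zero, ← Units.val_mul, mul_inv_cancel,
      Units.val_one]⟩

/-- a matrix of determinant one with given first column -/
lemma exists_col {K : Type} [Field K] (v : Fin 2 → K) (hv : v ≠ 0) :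
    ∃ P : SL K, (P : M2 K).mulVec ![1, 0] = v := by
  by_cases hv0 : v 0 = 0
  · have hv1 : v 1 ≠ 0 := by
      intro h
      apply hv
      ext i
      fin_cases i
      · exact hv0
      · exact h
    refine ⟨⟨!![0, -(v 1)⁻¹; v 1, 0], ?_⟩, ?_⟩
    · rw [Matrix.det_fin_two_of]
      field_simp
      ring
    · ext i
      fin_cases i
      · simp [Matrix.mulVec, dotProduct, Fin.sum_univ_two, hv0]
      · simp [Matrix.mulVec, dotProduct, Fin.sum_univ_two]
  · refine ⟨⟨!![v 0, 0; v 1, (v 0)⁻¹], ?_⟩, ?_⟩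
    · rw [Matrix.det_fin_two_of]
      field_simp
      ring
    · ext i
      fin_cases i
      · simp [Matrix.mulVec, dotProduct, Fin.sum_univ_two]
      · simp [Matrix.mulVec, dotProduct, Fin.sum_univ_two]

lemma le_ncard_Bor {K : Type} [Field K] [Finite K] (v : Fin 2 → K) (hv : v ≠ 0) :
    (Nat.card K - 1) * Nat.card K ≤ Set.ncard {b : SL K | b ∈ Bor v hv} := by
  obtain ⟨P, hP⟩ := exists_col v hv
  have hinj : Function.Injective (fun w : Kˣ × K => P * upp w.1 w.2 * P⁻¹) := by
    rintro ⟨s, t⟩ ⟨s', t'⟩ h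
    have h1 : upp s t = upp s' t' := mul_left_cancel (mul_right_cancel h)
    have h2 := congrArg (fun z : SL K => z.1 0 0) h1
    have h3 := congrArg (fun z : SL K => z.1 0 1) h1
    simp only [upp] at h2 h3
    have h2' : (s : K) = s' := by simpa using h2
    have h3' : t = t' := by simpa using h3
    rw [Units.ext h2', h3']
  have hsub : Set.range (fun w : Kˣ × K => P * upp w.1 w.2 * P⁻¹) ⊆ {b : SL K | b ∈ Bor v hv} := by
    rintro _ ⟨⟨s, t⟩, rfl⟩
    refine ⟨(s : K), ?_⟩
    have h1 : ((P⁻¹ : SL K) : M2 K).mulVec v = ![1, 0] := by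
      rw [← hP, Matrix.mulVec_mulVec, ← Matrix.SpecialLinearGroup.coe_mul, inv_mul_cancel,
        Matrix.SpecialLinearGroup.coe_one, Matrix.one_mulVec]
    have h2 : ((upp s t : SL K) : M2 K).mulVec ![1, 0] = (s : K) • ![1, 0] := by
      ext i
      fin_cases i
      · simp [upp, Matrix.mulVec, dotProduct, Fin.sum_univ_two]
      · simp [upp, Matrix.mulVec, dotProduct, Fin.sum_univ_two]
    show (((P * upp s t * P⁻¹ : SL K)) : M2 K).mulVec v = (s : K) • v
    rw [Matrix.SpecialLinearGroup.coe_mul, Matrix.SpecialLinearGroup.coe_mul,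
      ← Matrix.mulVec_mulVec, h1, ← Matrix.mulVec_mulVec, h2, Matrix.mulVec_smul, hP]
  refine le_trans ?_ (Set.ncard_le_ncard hsub (Set.toFinite _))
  rw [← Set.image_univ, hinj.injOn.ncard_image, Set.ncard_univ, Nat.card_prod, Nat.card_units]

/-- unipotent elements have order dividing the characteristic -/
lemma pow_char_of_tr_two {K : Type} [Field K] [Finite K] (z : SL K) (hz : tr z = 2) :
    z ^ ringChar K = 1 := by
  have hp : (ringChar K).Prime := by
    have hcp : CharP K (ringChar K) := ringChar.charP K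
    exact CharP.char_is_prime K (ringChar K)
  have hf : Fact (ringChar K).Prime := ⟨hp⟩
  have hcm : CharP (M2 K) (ringChar K) := by
    have hcp : CharP K (ringChar K) := ringChar.charP K
    infer_instance
  have hn : ((z : M2 K) - 1) * ((z : M2 K) - 1) = 0 := by
    have h := mul_self_eq z
    rw [hz] at h
    calc ((z : M2 K) - 1) * ((z : M2 K) - 1) = (z : M2 K) * (z : M2 K) - (2 : K) • (z : M2 K) + 1 := by
          rw [two_smul]; noncomm_ring
      _ = 0 := by rw [h]; simp
  have hn2 : ((z : M2 K) - 1) ^ ringChar K = 0 := by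
    obtain ⟨k, hk⟩ := Nat.exists_eq_add_of_le hp.two_le
    rw [hk, pow_add, pow_two, hn, zero_mul]
  apply Subtype.ext
  rw [Matrix.SpecialLinearGroup.coe_pow, Matrix.SpecialLinearGroup.coe_one]
  have h1 : (z : M2 K) = 1 + ((z : M2 K) - 1) := by abel
  rw [h1, add_pow_char_of_commute (ringChar K) (Commute.one_left _), one_pow, hn2, add_zero]

/-- BC1 -/
theorem stmt_BC1 (hTRC : Stmt_TRC) (hUPF : Stmt_UPF) (hROS : Stmt_ROS) (hBOB : Stmt_BOB) :
    Stmt_BC1 := by
  intro m hm
  obtain ⟨C, hC⟩ := hUPF .comm [m] (by intro h; cases h) (Or.inl (by simp)) (by simpa using hm)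
  refine ⟨16 * C, 6, ?_⟩
  intro K _ _ hq hchar
  have hup := hC K ⊤ (Nat.card K) (by omega) (Subgroup.mem_top _) (hROS K)
  have hdim : dimW .comm [m].length = 5 := by simp [dimW]
  rw [hdim] at hup
  set q := Nat.card K with hqdef
  have hcardSL : q * (q ^ 2 - q) ≤ Nat.card (SL K) := by
    rw [← Set.ncard_univ (SL K)]
    have h1 : q = (Set.univ : Set K).ncard := by rw [Set.ncard_univ]
    calc q * (q ^ 2 - q) = (Set.univ : Set K).ncard * (q ^ 2 - q) := by rw [← h1]
      _ ≤ _ := by
        apply mul_le_ncard_of_fiber Set.finite_univ Set.finite_univ tr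
        intro τ _
        have hT := (hTRC K 1 τ one_ne_zero).2.2.1
        rw [← hqdef] at hT
        have hsub : {x : SL K | tr x = τ} ⊆ {a | a ∈ (Set.univ : Set (SL K)) ∧ tr a = τ} :=
          fun x hx => ⟨trivial, hx⟩
        refine le_trans ?_ (Set.ncard_le_ncard hsub (Set.toFinite _))
        omega
  -- traces
  set U : Set K := {al : K | al ≠ 0 ∧ al ^ 2 ≠ 1} with hU
  set T : Set K := (fun al : K => al + al⁻¹) '' U with hTdef
  have hUcard : q - 3 ≤ U.ncard := by
    have hsub : Uᶜ ⊆ {0, 1, -1} := by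
      intro al hal
      by_cases h0 : al = 0
      · left; exact h0
      · right
        have h1 : al ^ 2 = 1 := by
          by_contra h
          exact hal ⟨h0, h⟩
        have : (al - 1) * (al + 1) = 0 := by linear_combination h1
        rcases mul_eq_zero.mp this with h | h
        · left; exact sub_eq_zero.mp h
        · right; exact eq_neg_of_add_eq_zero_left h
    have h3 : (Uᶜ).ncard ≤ 3 := by
      refine (Set.ncard_le_ncard hsub (Set.toFinite _)).trans ?_
      refine (Set.ncard_insert_le _ _).trans ?_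
      have := Set.ncard_insert_le (1 : K) {-1}
      rw [Set.ncard_singleton] at this
      omega
    have h4 := Set.ncard_add_ncard_compl U
    omega
  have hTcard : q - 3 ≤ 2 * T.ncard := by
    refine hUcard.trans ?_
    rw [mul_comm]
    apply ncard_le_mul_of_fiber (Set.toFinite _) (Set.toFinite _) (fun al : K => al + al⁻¹)
    · intro al hal
      exact ⟨al, hal, rfl⟩
    · intro τ _
      by_cases hne : ({a | a ∈ U ∧ a + a⁻¹ = τ}).Nonempty
      · obtain ⟨a, ⟨ha0, _⟩, ha⟩ := hne
        have hsub : {a | a ∈ U ∧ a + a⁻¹ = τ} ⊆ {a, a⁻¹} := by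
          rintro b ⟨⟨hb0, _⟩, hb⟩
          have h1 : a + a⁻¹ = b + b⁻¹ := ha.trans hb.symm
          have h2 : (b - a) * (b - a⁻¹) = 0 := by
            field_simp at h1 ⊢
            linear_combination (-1 : K) * h1
          rcases mul_eq_zero.mp h2 with h | h
          · left; exact sub_eq_zero.mp h
          · right; exact sub_eq_zero.mp h
        refine (Set.ncard_le_ncard hsub (Set.toFinite _)).trans ?_
        exact (Set.ncard_insert_le _ _).trans (by simp)
      · rw [Set.not_nonempty_iff_eq_empty.mp hne]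
        simp
  -- elements with an eigenvector
  have hA : T.ncard * (q ^ 2 - q) ≤ Set.ncard {a : SL K | tr a ∈ T} := by
    apply mul_le_ncard_of_fiber (Set.toFinite _) (Set.toFinite _) tr
    intro τ hτ
    have hT := (hTRC K 1 τ one_ne_zero).2.2.1
    rw [← hqdef] at hT
    have hsub : {x : SL K | tr x = τ} ⊆ {a | a ∈ {a : SL K | tr a ∈ T} ∧ tr a = τ} := by
      intro x hx
      have hx' : tr x = τ := hx
      refine ⟨?_, hx'⟩
      show tr x ∈ T
      rw [hx']
      exact hτ
    refine le_trans ?_ (Set.ncard_le_ncard hsub (Set.toFinite _))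
    omega
  have hlow : T.ncard * (q ^ 2 - q) * ((q - 1) * q) ≤ (Bad .comm [m] K).ncard := by
    refine (Nat.mul_le_mul_right _ hA).trans ?_
    apply mul_le_ncard_of_fiber (Bad_finite _ _) (Set.toFinite _) 
      (fun t : List (SL K) × (Fin (Wd.comm).n → SL K) => t.2 (0 : Fin 2))
    intro a ha
    obtain ⟨al, ⟨hal0, _⟩, hal⟩ := ha
    have hdet : ((a : M2 K) - al • (1 : M2 K)).det = 0 := by
      rw [Matrix.det_fin_two]
      have hd := det_eq a
      have ht : al + al⁻¹ = a.1 0 0 + a.1 1 1 := hal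
      have ht' : al ^ 2 + 1 = (a.1 0 0 + a.1 1 1) * al := by
        rw [← ht]
        field_simp
      simp
      linear_combination hd + ht'
    obtain ⟨v, hv, hav⟩ := Matrix.exists_mulVec_eq_zero_iff.mpr hdet
    have haB : a ∈ Bor v hv := by
      refine ⟨al, ?_⟩
      rw [Matrix.sub_mulVec, Matrix.smul_mulVec, Matrix.one_mulVec, sub_eq_zero] at hav
      exact hav
    refine (le_ncard_Bor v hv).trans ?_
    have hinj : Set.InjOn (fun b : SL K => (([(cm a b)⁻¹], ![a, b]) :
        List (SL K) × (Fin (Wd.comm).n → SL K))) {b : SL K | b ∈ Bor v hv} := by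
      intro b _ b' _ h
      have h1 := (Prod.ext_iff.mp h).2
      exact congrFun h1 (1 : Fin 2)
    rw [← hinj.ncard_image]
    apply Set.ncard_le_ncard _ ((Bad_finite _ _).subset (fun a ha => ha.1))
    rintro _ ⟨b, hb, rfl⟩
    have hbB : b ∈ Bor v hv := hb
    have hcB : (cm a b)⁻¹ ∈ Bor v hv := by
      apply Subgroup.inv_mem
      exact Subgroup.mul_mem _ (Subgroup.mul_mem _ (Subgroup.mul_mem _ haB hbB)
        (Subgroup.inv_mem _ haB)) (Subgroup.inv_mem _ hbB)
    have htr : tr ((cm a b)⁻¹) = 2 := by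
      rw [tr_inv]
      exact (hBOB K v hv).2.2 a haB b hbB
    refine ⟨⟨⟨?_, fun _ => Subgroup.mem_top _, ?_⟩, ?_⟩, rfl⟩
    · rw [cons_mem_Xs, Xs_nil]
      refine ⟨Subgroup.mem_top _, ?_, rfl⟩
      obtain ⟨k, rfl⟩ := hchar
      left
      rw [pow_mul, pow_char_of_tr_two _ htr, one_pow]
    · left
      show [(cm a b)⁻¹].prod * cm a b = 1
      simp
    · intro htop
      have hle : gn (([(cm a b)⁻¹], ![a, b]) :
          List (SL K) × (Fin (Wd.comm).n → SL K)) ≤ Bor v hv := by
        rw [gn_le_iff]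
        refine ⟨?_, ?_, neg_one_mem_Bor v hv⟩
        · intro x hx
          rw [List.mem_singleton] at hx
          rw [hx]
          exact hcB
        · intro j
          have hj : j = (0 : Fin 2) ∨ j = (1 : Fin 2) := by
            have : ∀ j : Fin 2, j = 0 ∨ j = 1 := by decide
            exact this j
          rcases hj with rfl | rfl
          · exact haB
          · exact hbB
      rw [htop, top_le_iff] at hle
      have h4 := (hBOB K v hv).1
      rw [hle, Subgroup.card_top] at h4
      have h5 : q * (q ^ 2 - q) ≤ q ^ 2 := hcardSL.trans h4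
      have h6 : 6 * q ≤ q ^ 2 := by nlinarith
      have h7 : 5 * q ≤ q ^ 2 - q := by omega
      have h8 : q * (5 * q) ≤ q ^ 2 := (Nat.mul_le_mul_left _ h7).trans h5
      nlinarith
  -- arithmetic
  have e1 : q ≤ 4 * T.ncard := by omega
  have e2 : q ^ 2 ≤ 2 * (q ^ 2 - q) := by
    have : 6 * q ≤ q ^ 2 := by nlinarith
    omega
  have e3 : q ≤ 2 * (q - 1) := by omega
  have e4 : q ^ 5 ≤ 16 * (T.ncard * (q ^ 2 - q) * ((q - 1) * q)) := by
    calc q ^ 5 = q * q ^ 2 * (q * q) := by ring
      _ ≤ (4 * T.ncard) * (2 * (q ^ 2 - q)) * ((2 * (q - 1)) * q) :=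
        Nat.mul_le_mul (Nat.mul_le_mul e1 e2) (Nat.mul_le_mul_right _ e3)
      _ = 16 * (T.ncard * (q ^ 2 - q) * ((q - 1) * q)) := by ring
  calc (Tup .comm [m] (⊤ : Subgroup (SL K))).ncard ≤ C * q ^ 5 := hup
    _ ≤ C * (16 * (T.ncard * (q ^ 2 - q) * ((q - 1) * q))) := Nat.mul_le_mul_left _ e4
    _ ≤ C * (16 * (Bad .comm [m] K).ncard) :=
      Nat.mul_le_mul_left _ (Nat.mul_le_mul_left _ hlow)
    _ = 16 * C * (Bad .comm [m] K).ncard := by ring

end Pool.FG.helper20
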