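import Pool.Agent.Work.MP_65e34f.Basic

/-!
# MP_65e34f_al, block BZ4 (helper20)
-/

set_option autoImplicit false

namespace Pool.FG.helper20

open Matrix

/-- an element of trace zero has square `-1` -/
lemma sq_of_tr_zero {K : Type} [Field K] (x : SL K) (h : tr x = 0) : x ^ 2 = -1 := by
  apply Subtype.ext
  rw [Matrix.SpecialLinearGroup.coe_pow, pow_two, mul_self_eq, h, zero_smul, zero_sub,
    Matrix.SpecialLinearGroup.coe_neg, Matrix.SpecialLinearGroup.coe_one]

lemma sc_pow_of_tr_zero {K : Type} [Field K] (x : SL K) (h : tr x = 0) (m : ℕ) (hm : Even m) :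
    Sc (x ^ m) := by
  obtain ⟨k, rfl⟩ := hm
  rw [← two_mul, pow_mul, sq_of_tr_zero x h]
  exact Sc_neg_one.pow k

/-- an element of trace zero with `tr (y x) = 0` normalizes the torus of `y` -/
lemma mem_Nor_of_tr_zero {K : Type} [Field K] (x y : SL K) (h : tr x = 0)
    (h' : tr (y * x) = 0) : x ∈ Nor (y : M2 K) := by
  right
  have e1 : x.1 0 0 + x.1 1 1 = 0 := h
  have e2 : y.1 0 0 * x.1 0 0 + y.1 0 1 * x.1 1 0 + (y.1 1 0 * x.1 0 1 + y.1 1 1 * x.1 1 1) = 0 := by
    have := h'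
    simp only [tr, Matrix.SpecialLinearGroup.coe_mul, Matrix.mul_apply, Fin.sum_univ_two] at this
    exact this
  have e3 : x.1 1 1 = - x.1 0 0 := by linear_combination e1
  rw [e3] at e2
  ext i j
  fin_cases i <;> fin_cases j
  · simp [Matrix.mul_apply, Fin.sum_univ_two]
    linear_combination e2
  · simp [Matrix.mul_apply, Fin.sum_univ_two]
    rw [e3]; ring
  · simp [Matrix.mul_apply, Fin.sum_univ_two]
    rw [e3]; ring
  · simp [Matrix.mul_apply, Fin.sum_univ_two]
    rw [e3]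
    linear_combination e2

lemma dsc_coe {K : Type} [Field K] (y : SL K) : dsc (y : M2 K) = tr y ^ 2 - 4 := by
  have : (y : M2 K).det = 1 := y.2
  rw [dsc, this, mul_one]
  rfl

/-- BZ4 -/
theorem stmt_BZ4 (hTRC : Stmt_TRC) (hTWO : Stmt_TWO) (hUPZ : Stmt_UPZ) (hROS : Stmt_ROS)
    (hTOB : Stmt_TOB) : Stmt_BZ4 := by
  intro m1 m2 m3 m4 h1 h2 h3 h4 v1 v2 v3 v4
  obtain ⟨C, hC⟩ := hUPZ [m1, m2, m3, m4] (by simp) (by simp [h1, h2, h3, h4])
  refine ⟨16 * C, 6, ?_⟩
  intro K _ _ hq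
  have hup := hC K ⊤ (Nat.card K) (by omega) (Subgroup.mem_top _) (hROS K)
  have hdim : dimW .zero [m1, m2, m3, m4].length = 5 := by simp [dimW]
  rw [hdim] at hup
  set q := Nat.card K with hqdef
  -- the centre elements
  have hY : (q - 2) * (q ^ 2 - q) ≤ Set.ncard {y : SL K | tr y ^ 2 ≠ 4} := by
    have ht : q - 2 ≤ Set.ncard ({2, -2}ᶜ : Set K) := by
      rw [Set.ncard_compl]
      have : Set.ncard ({2, -2} : Set K) ≤ 2 := by
        apply (Set.ncard_insert_le _ _).trans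
        simp
      omega
    refine (Nat.mul_le_mul_right _ ht).trans ?_
    apply mul_le_ncard_of_fiber (Set.toFinite _) (Set.toFinite _) tr
    intro τ hτ
    have hT := (hTRC K 1 τ one_ne_zero).2.2.1
    rw [← hqdef] at hT
    have hsub : {x : SL K | tr x = τ} ⊆ {a | a ∈ {y : SL K | tr y ^ 2 ≠ 4} ∧ tr a = τ} := by
      intro x hx
      refine ⟨?_, hx⟩
      show tr x ^ 2 ≠ 4
      rw [show tr x = τ from hx]
      intro h
      apply hτ
      have : (τ - 2) * (τ + 2) = 0 := by linear_combination h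
      rcases mul_eq_zero.mp this with h | h
      · left; linear_combination h
      · right
        show τ = -2
        linear_combination h
    refine le_trans ?_ (Set.ncard_le_ncard hsub (Set.toFinite _))
    omega
  have hcardSL : 4 * q < Nat.card (SL K) := by
    have h0 := (hTRC K 1 0 one_ne_zero).2.2.1
    rw [← hqdef] at h0
    have h5 : Set.ncard {x : SL K | tr x = 0} ≤ Nat.card (SL K) := by
      rw [← Set.ncard_univ]
      exact Set.ncard_le_ncard (Set.subset_univ _) Set.finite_univ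
    have : 6 * q ≤ q ^ 2 := by nlinarith
    omega
  -- the fibres
  have hlow : (q - 2) * (q ^ 2 - q) * ((q - 3) * (q - 3)) ≤ (Bad .zero [m1, m2, m3, m4] K).ncard := by
    refine (Nat.mul_le_mul_right _ hY).trans ?_
    apply mul_le_ncard_of_fiber (Bad_finite _ _) (Set.toFinite _) (fun t => (t.1.take 2).prod)
    intro y hy
    have hy4 : tr y ^ 2 ≠ 4 := hy
    have hysc : ¬ Sc y := by
      intro h
      rcases h.tr_eq with h | h
      · apply hy4; rw [h]; ring
      · apply hy4; rw [h]; ring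
    have hA : q - 3 ≤ Set.ncard {x : SL K | tr x = 0 ∧ tr (y * x) = 0} := by
      have := (hTWO K y hysc 0 0).2 (by
        intro h
        apply hy4
        unfold kap at h
        linear_combination h)
      omega
    set A := {x : SL K | tr x = 0 ∧ tr (y * x) = 0} with hAdef
    have hprod : (q - 3) * (q - 3) ≤ (A ×ˢ A).ncard := by
      rw [Set.ncard_prod]
      exact Nat.mul_le_mul hA hA
    refine hprod.trans ?_
    have hinj : Set.InjOn (fun w : SL K × SL K =>
        (([w.1, w.1⁻¹ * y, w.2, (y * w.2)⁻¹], fun _ => 1) :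
          List (SL K) × (Fin (Wd.zero).n → SL K))) (A ×ˢ A) := by
      intro w _ w' _ hww
      have h1 := (Prod.ext_iff.mp hww).1
      simp only [List.cons.injEq] at h1
      exact Prod.ext h1.1 h1.2.2.1
    rw [← hinj.ncard_image]
    apply Set.ncard_le_ncard _ ((Bad_finite _ _).subset (fun a ha => ha.1))
    rintro _ ⟨⟨x1, x3⟩, ⟨⟨a1, a2⟩, ⟨b1, b2⟩⟩, rfl⟩
    dsimp only at a1 a2 b1 b2 ⊢
    have c1 : tr (x1⁻¹ * y) = 0 := by
      rw [tr_inv_mul, tr_mul_comm x1 y, a1, a2]; ring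
    have c2 : tr ((y * x3)⁻¹) = 0 := by rw [tr_inv, b2]
    have n1 : x1 ∈ Nor (y : M2 K) := mem_Nor_of_tr_zero x1 y a1 a2
    have n3 : x3 ∈ Nor (y : M2 K) := mem_Nor_of_tr_zero x3 y b1 b2
    have ny : y ∈ Nor (y : M2 K) := Or.inl rfl
    refine ⟨⟨⟨?_, fun _ => Subgroup.mem_top _, ?_⟩, ?_⟩, ?_⟩
    · rw [cons_mem_Xs, cons_mem_Xs, cons_mem_Xs, cons_mem_Xs, Xs_nil]
      exact ⟨Subgroup.mem_top _, sc_pow_of_tr_zero _ a1 _ v1, Subgroup.mem_top _,
        sc_pow_of_tr_zero _ c1 _ v2, Subgroup.mem_top _, sc_pow_of_tr_zero _ b1 _ v3,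
        Subgroup.mem_top _, sc_pow_of_tr_zero _ c2 _ v4, rfl⟩
    · left
      simp
    · intro htop
      have hle : gn (([x1, x1⁻¹ * y, x3, (y * x3)⁻¹], fun _ => 1) :
          List (SL K) × (Fin (Wd.zero).n → SL K)) ≤ Nor (y : M2 K) := by
        rw [gn_le_iff]
        refine ⟨?_, fun _ => Subgroup.one_mem _, neg_one_mem_Nor _⟩
        intro x hx
        simp only [List.mem_cons, List.not_mem_nil, or_false] at hx
        rcases hx with rfl | rfl | rfl | rfl
        · exact n1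
        · exact Subgroup.mul_mem _ (Subgroup.inv_mem _ n1) ny
        · exact n3
        · exact Subgroup.inv_mem _ (Subgroup.mul_mem _ ny n3)
      rw [htop, top_le_iff] at hle
      have hd : dsc (y : M2 K) ≠ 0 := by
        rw [dsc_coe]
        exact sub_ne_zero.mpr hy4
      have h4 := (hTOB K (y : M2 K) hd).2.1
      rw [hle, Subgroup.card_top] at h4
      omega
    · simp
  -- arithmetic
  obtain ⟨r, hr⟩ : ∃ r, q = r + 6 := ⟨q - 6, by omega⟩
  have e1 : q ≤ 2 * (q - 2) := by omega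
  have e2 : q ^ 2 ≤ 2 * (q ^ 2 - q) := by
    have : 6 * q ≤ q ^ 2 := by nlinarith
    omega
  have e3 : q ≤ 2 * (q - 3) := by omega
  have e4 : q ^ 5 ≤ 16 * ((q - 2) * (q ^ 2 - q) * ((q - 3) * (q - 3))) := by
    calc q ^ 5 = q * q ^ 2 * (q * q) := by ring
      _ ≤ (2 * (q - 2)) * (2 * (q ^ 2 - q)) * ((2 * (q - 3)) * (2 * (q - 3))) :=
        Nat.mul_le_mul (Nat.mul_le_mul e1 e2) (Nat.mul_le_mul e3 e3)
      _ = 16 * ((q - 2) * (q ^ 2 - q) * ((q - 3) * (q - 3))) := by ring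
  calc (Tup .zero [m1, m2, m3, m4] (⊤ : Subgroup (SL K))).ncard ≤ C * q ^ 5 := hup
    _ ≤ C * (16 * ((q - 2) * (q ^ 2 - q) * ((q - 3) * (q - 3)))) := Nat.mul_le_mul_left _ e4
    _ ≤ C * (16 * (Bad .zero [m1, m2, m3, m4] K).ncard) :=
      Nat.mul_le_mul_left _ (Nat.mul_le_mul_left _ hlow)
    _ = 16 * C * (Bad .zero [m1, m2, m3, m4] K).ncard := by ring

end Pool.FG.helper20
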