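import Pool.Agent.Work.MP_65e34f.Basic

/-!
# MP_65e34f_al, block CNJ (helper20)
-/

set_option autoImplicit false

namespace Pool.FG.helper20

open Matrix

/-- a non-scalar element is conjugate to its companion matrix -/
lemma exists_companion {K : Type} [Field K] (x : SL K) (hx : ¬ Sc x) :
    ∃ g : GL (Fin 2) K, (x : M2 K) * (g : M2 K) = (g : M2 K) * !![0, -1; 1, tr x] := by
  have key : ∀ v0 v1 : K,
      v0 * (x.1 1 0 * v0 + x.1 1 1 * v1) - v1 * (x.1 0 0 * v0 + x.1 0 1 * v1) ≠ 0 →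
      ∃ g : GL (Fin 2) K, (x : M2 K) * (g : M2 K) = (g : M2 K) * !![0, -1; 1, tr x] := by
    intro v0 v1 hv
    have hdet : (!![v0, x.1 0 0 * v0 + x.1 0 1 * v1; v1, x.1 1 0 * v0 + x.1 1 1 * v1] :
        M2 K).det ≠ 0 := by
      rw [Matrix.det_fin_two_of]
      intro h
      exact hv (by linear_combination h)
    refine ⟨Matrix.GeneralLinearGroup.mkOfDetNeZero _ hdet, ?_⟩
    have hval : ((Matrix.GeneralLinearGroup.mkOfDetNeZero _ hdet : GL (Fin 2) K) : M2 K) =
        !![v0, x.1 0 0 * v0 + x.1 0 1 * v1; v1, x.1 1 0 * v0 + x.1 1 1 * v1] := rfl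
    rw [hval]
    have h := det_eq x
    ext i j
    fin_cases i <;> fin_cases j
    · simp [Matrix.mul_apply, Fin.sum_univ_two]
    · simp [Matrix.mul_apply, Fin.sum_univ_two, tr]
      linear_combination (-v0) * h
    · simp [Matrix.mul_apply, Fin.sum_univ_two]
    · simp [Matrix.mul_apply, Fin.sum_univ_two, tr]
      linear_combination (-v1) * h
  by_contra hcon
  apply hx
  rw [Sc_iff]
  have h10 : x.1 1 0 = 0 := by
    by_contra h
    exact hcon (key 1 0 (by simpa using h))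
  have h01 : x.1 0 1 = 0 := by
    by_contra h
    exact hcon (key 0 1 (by simpa using h))
  refine ⟨h01, h10, ?_⟩
  by_contra h
  apply hcon
  apply key 1 1
  intro h'
  apply h
  linear_combination (-1 : K) * h' + h10 - h01

/-- CNJ -/
theorem stmt_CNJ : Stmt_CNJ := by
  intro K _
  have h1 : ∀ x y : SL K, ¬ Sc x → ¬ Sc y → tr x = tr y →
      ∃ g : GL (Fin 2) K, (g : M2 K) * (x : M2 K) = (y : M2 K) * (g : M2 K) := by
    intro x y hx hy hxy
    obtain ⟨g, hg⟩ := exists_companion x hx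
    obtain ⟨k, hk⟩ := exists_companion y hy
    refine ⟨k * g⁻¹, ?_⟩
    have hgi : (g : M2 K) * ((g⁻¹ : GL (Fin 2) K) : M2 K) = 1 := by
      rw [← Units.val_mul, mul_inv_cancel, Units.val_one]
    have hgi' : ((g⁻¹ : GL (Fin 2) K) : M2 K) * (g : M2 K) = 1 := by
      rw [← Units.val_mul, inv_mul_cancel, Units.val_one]
    rw [Units.val_mul]
    have hx' : ((g⁻¹ : GL (Fin 2) K) : M2 K) * (x : M2 K) =
        !![0, -1; 1, tr x] * ((g⁻¹ : GL (Fin 2) K) : M2 K) := by
      calc ((g⁻¹ : GL (Fin 2) K) : M2 K) * (x : M2 K)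
          = ((g⁻¹ : GL (Fin 2) K) : M2 K) * ((x : M2 K) * (g : M2 K)) *
            ((g⁻¹ : GL (Fin 2) K) : M2 K) := by
            rw [← mul_assoc, mul_assoc _ (g : M2 K), hgi, mul_one]
        _ = ((g⁻¹ : GL (Fin 2) K) : M2 K) * (g : M2 K) * !![0, -1; 1, tr x] *
            ((g⁻¹ : GL (Fin 2) K) : M2 K) := by rw [hg]; simp only [mul_assoc]
        _ = _ := by rw [hgi', one_mul]
    rw [mul_assoc, hx', ← mul_assoc, ← mul_assoc, hk, hxy]
  refine ⟨h1, ?_⟩
  intro x y m hx hxm hxy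
  by_cases hy : Sc y
  · exact hy.pow m
  obtain ⟨g, hg⟩ := h1 x y hx hy hxy.symm
  have hgi : (g : M2 K) * ((g⁻¹ : GL (Fin 2) K) : M2 K) = 1 := by
    rw [← Units.val_mul, mul_inv_cancel, Units.val_one]
  have hpow : (g : M2 K) * (x : M2 K) ^ m = (y : M2 K) ^ m * (g : M2 K) := by
    clear hxm
    induction m with
    | zero => simp
    | succ n ih => rw [pow_succ, ← mul_assoc, ih, mul_assoc, hg, ← mul_assoc, ← pow_succ]
  have hy' : (y : M2 K) ^ m = (g : M2 K) * (x : M2 K) ^ m * ((g⁻¹ : GL (Fin 2) K) : M2 K) := by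
    rw [hpow, mul_assoc, hgi, mul_one]
  rcases hxm with h | h
  · left
    apply Subtype.ext
    have hc : (x : M2 K) ^ m = 1 := by
      rw [← Matrix.SpecialLinearGroup.coe_pow, h, Matrix.SpecialLinearGroup.coe_one]
    rw [Matrix.SpecialLinearGroup.coe_pow, hy', hc, mul_one, hgi,
      Matrix.SpecialLinearGroup.coe_one]
  · right
    apply Subtype.ext
    have hc : (x : M2 K) ^ m = -1 := by
      rw [← Matrix.SpecialLinearGroup.coe_pow, h, Matrix.SpecialLinearGroup.coe_neg,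
        Matrix.SpecialLinearGroup.coe_one]
    rw [Matrix.SpecialLinearGroup.coe_pow, hy', hc, mul_neg, mul_one, neg_mul, hgi,
      Matrix.SpecialLinearGroup.coe_neg, Matrix.SpecialLinearGroup.coe_one]

end Pool.FG.helper20
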