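import Pool.Agent.Work.MP_65e34f.Basic

/-!
# MP_65e34f_al, block TWO (helper20)
-/

set_option autoImplicit false

namespace Pool.FG.helper20

open Matrix

/-- the companion matrix with determinant one -/
def comp {K : Type} [Field K] (s : K) : SL K :=
  ⟨!![0, -1; 1, s], by rw [Matrix.det_fin_two_of]; ring⟩

lemma tr_comp {K : Type} [Field K] (s : K) : tr (comp s) = s := by
  simp [tr, comp]

lemma comp_not_sc {K : Type} [Field K] (s : K) : ¬ Sc (comp s) := by
  rw [Sc_iff]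
  intro h
  have := h.2.1
  simp [comp] at this

/-- conjugation of an element of `SL_2` by an element of `GL_2` -/
def cj {K : Type} [Field K] (g : GL (Fin 2) K) (x : SL K) : SL K :=
  ⟨(g : M2 K) * (x : M2 K) * ((g⁻¹ : GL (Fin 2) K) : M2 K), by
    have h : (g : M2 K).det * ((g⁻¹ : GL (Fin 2) K) : M2 K).det = 1 := by
      rw [← Matrix.det_mul, ← Units.val_mul, mul_inv_cancel, Units.val_one, Matrix.det_one]
    rw [Matrix.det_mul, Matrix.det_mul, x.2, mul_one, h]⟩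

lemma cj_cj_inv {K : Type} [Field K] (g : GL (Fin 2) K) (x : SL K) : cj g (cj g⁻¹ x) = x := by
  have hgi : (g : M2 K) * ((g⁻¹ : GL (Fin 2) K) : M2 K) = 1 := by
    rw [← Units.val_mul, mul_inv_cancel, Units.val_one]
  apply Subtype.ext
  show (g : M2 K) * (((g⁻¹ : GL (Fin 2) K) : M2 K) * (x : M2 K) *
    (((g⁻¹)⁻¹ : GL (Fin 2) K) : M2 K)) * ((g⁻¹ : GL (Fin 2) K) : M2 K) = (x : M2 K)
  rw [inv_inv]
  calc (g : M2 K) * (((g⁻¹ : GL (Fin 2) K) : M2 K) * (x : M2 K) * (g : M2 K)) *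
        ((g⁻¹ : GL (Fin 2) K) : M2 K)
      = ((g : M2 K) * ((g⁻¹ : GL (Fin 2) K) : M2 K)) * (x : M2 K) *
        ((g : M2 K) * ((g⁻¹ : GL (Fin 2) K) : M2 K)) := by simp only [mul_assoc]
    _ = (x : M2 K) := by rw [hgi, one_mul, mul_one]

lemma tr_cj {K : Type} [Field K] (g : GL (Fin 2) K) (x : SL K) : tr (cj g x) = tr x := by
  have hgi' : ((g⁻¹ : GL (Fin 2) K) : M2 K) * (g : M2 K) = 1 := by
    rw [← Units.val_mul, inv_mul_cancel, Units.val_one]
  rw [tr_eq_trace, tr_eq_trace]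
  show ((g : M2 K) * (x : M2 K) * ((g⁻¹ : GL (Fin 2) K) : M2 K)).trace = (x : M2 K).trace
  rw [Matrix.trace_mul_comm, ← mul_assoc, hgi', one_mul]

lemma cj_mul {K : Type} [Field K] (g : GL (Fin 2) K) (x y : SL K) :
    cj g (x * y) = cj g x * cj g y := by
  have hgi' : ((g⁻¹ : GL (Fin 2) K) : M2 K) * (g : M2 K) = 1 := by
    rw [← Units.val_mul, inv_mul_cancel, Units.val_one]
  apply Subtype.ext
  rw [Matrix.SpecialLinearGroup.coe_mul]
  show (g : M2 K) * ((x * y : SL K) : M2 K) * ((g⁻¹ : GL (Fin 2) K) : M2 K) =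
    ((g : M2 K) * (x : M2 K) * ((g⁻¹ : GL (Fin 2) K) : M2 K)) *
    ((g : M2 K) * (y : M2 K) * ((g⁻¹ : GL (Fin 2) K) : M2 K))
  rw [Matrix.SpecialLinearGroup.coe_mul]
  calc (g : M2 K) * ((x : M2 K) * (y : M2 K)) * ((g⁻¹ : GL (Fin 2) K) : M2 K)
      = (g : M2 K) * (x : M2 K) * 1 * (y : M2 K) * ((g⁻¹ : GL (Fin 2) K) : M2 K) := by
        simp only [mul_assoc, one_mul]
    _ = _ := by rw [← hgi']; simp only [mul_assoc]

/-- the count for the companion matrix is the number of points of a conic -/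
lemma ncard_comp {K : Type} [Field K] (s τ t : K) :
    Set.ncard {x : SL K | tr x = τ ∧ tr (comp s * x) = t} =
    Set.ncard {w : K × K | w.1 ^ 2 - s * w.1 * w.2 + w.2 ^ 2 + (-τ) * w.1 + t * w.2 + 1 = 0} := by
  have htr : ∀ x : SL K, tr (comp s * x) = -x.1 1 0 + x.1 0 1 + s * x.1 1 1 := by
    intro x
    simp [tr, comp, Matrix.SpecialLinearGroup.coe_mul, Matrix.mul_apply, Fin.sum_univ_two]
    ring
  apply Set.ncard_congr (fun x _ => (x.1 1 1, x.1 1 0))
  · intro x hx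
    obtain ⟨h1, h2⟩ := hx
    rw [htr] at h2
    have h := det_eq x
    have h1' : x.1 0 0 + x.1 1 1 = τ := h1
    show (x.1 1 1) ^ 2 - s * x.1 1 1 * x.1 1 0 + (x.1 1 0) ^ 2 + (-τ) * x.1 1 1 + t * x.1 1 0 + 1
      = 0
    rw [← h1', ← h2]
    linear_combination (-1 : K) * h
  · intro x y hx hy hxy
    obtain ⟨h1, h2⟩ := hx
    obtain ⟨h1', h2'⟩ := hy
    rw [htr] at h2 h2'
    have e1 : x.1 1 1 = y.1 1 1 := (Prod.ext_iff.mp hxy).1
    have e2 : x.1 1 0 = y.1 1 0 := (Prod.ext_iff.mp hxy).2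
    have e3 : x.1 0 0 = y.1 0 0 := by
      have a1 : x.1 0 0 + x.1 1 1 = τ := h1
      have a2 : y.1 0 0 + y.1 1 1 = τ := h1'
      linear_combination a1 - a2 - e1
    have e4 : x.1 0 1 = y.1 0 1 := by
      linear_combination h2 - h2' + e2 - s * e1
    apply Subtype.ext
    ext i j
    fin_cases i <;> fin_cases j
    · exact e3
    · exact e4
    · exact e2
    · exact e1
  · rintro ⟨u, r⟩ hw
    have hw' : u ^ 2 - s * u * r + r ^ 2 + (-τ) * u + t * r + 1 = 0 := hw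
    refine ⟨⟨!![τ - u, t + r - s * u; r, u], ?_⟩, ⟨?_, ?_⟩, ?_⟩
    · rw [Matrix.det_fin_two_of]
      linear_combination (-1 : K) * hw'
    · simp [tr]
    · rw [htr]
      simp
      ring
    · simp

/-- TWO -/
theorem stmt_TWO (hCNJ : Stmt_CNJ) (hCNC : Stmt_CNC) : Stmt_TWO := by
  intro K _ _ a ha τ t
  have hcount : Set.ncard {x : SL K | tr x = τ ∧ tr (a * x) = t} =
      Set.ncard {x : SL K | tr x = τ ∧ tr (comp (tr a) * x) = t} := by
    obtain ⟨g, hg⟩ := (hCNJ K).1 a (comp (tr a)) ha (comp_not_sc _) (tr_comp _).symm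
    have hgi : (g : M2 K) * ((g⁻¹ : GL (Fin 2) K) : M2 K) = 1 := by
      rw [← Units.val_mul, mul_inv_cancel, Units.val_one]
    have hca : cj g a = comp (tr a) := by
      apply Subtype.ext
      show (g : M2 K) * (a : M2 K) * ((g⁻¹ : GL (Fin 2) K) : M2 K) = (comp (tr a) : M2 K)
      rw [hg, mul_assoc, hgi, mul_one]
    have hinj : Function.Injective (cj g) := by
      intro x y hxy
      have h1 := congrArg (cj g⁻¹) hxy
      have h2 : ∀ z : SL K, cj g⁻¹ (cj g z) = z := by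
        intro z
        have := cj_cj_inv g⁻¹ z
        rwa [inv_inv] at this
      rwa [h2, h2] at h1
    apply Set.ncard_congr (fun x _ => cj g x)
    · rintro x ⟨h1, h2⟩
      refine ⟨by rw [tr_cj]; exact h1, ?_⟩
      rw [← hca, ← cj_mul, tr_cj]
      exact h2
    · intro x y _ _ hxy
      exact hinj hxy
    · rintro y ⟨h1, h2⟩
      refine ⟨cj g⁻¹ y, ⟨by rw [tr_cj]; exact h1, ?_⟩, cj_cj_inv g y⟩
      rw [← tr_cj g, cj_mul, cj_cj_inv, hca]
      exact h2
  rw [hcount, ncard_comp]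
  have h := hCNC K (tr a) (-τ) t 1
  refine ⟨h.1, fun hk => h.2 ?_⟩
  intro h0
  apply hk
  unfold kap
  linear_combination (-1 : K) * h0

end Pool.FG.helper20
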