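import Pool.Agent.Work.MP_65e34f.Basic

/-!
# MP_65e34f_al, block TYS (helper20)
-/

set_option autoImplicit false

namespace Pool.FG.helper20

open Matrix

/-- a `2 x 2` system: an element of `SL_2(K)` is determined by the traces against `1, x, y, xy` if
`kp x y ≠ 2` -/
lemma eq_of_traces {K : Type} [Field K] (x y h h' : SL K) (hk : kp x y ≠ 2)
    (e0 : tr h = tr h') (e1 : tr (h * x) = tr (h' * x)) (e2 : tr (h * y) = tr (h' * y))
    (e3 : tr (h * (x * y)) = tr (h' * (x * y))) : h = h' := by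
  have hx := det_eq x
  have hy := det_eq y
  simp only [tr, Matrix.SpecialLinearGroup.coe_mul, Matrix.mul_apply, Fin.sum_univ_two]
    at e0 e1 e2 e3
  have hk' : kp x y - 2 ≠ 0 := sub_ne_zero.mpr hk
  simp only [kp, kap, tr, Matrix.SpecialLinearGroup.coe_mul, Matrix.mul_apply,
    Fin.sum_univ_two] at hk'
  generalize x.1 0 0 = a at *
  generalize x.1 0 1 = b at *
  generalize x.1 1 0 = c at *
  generalize x.1 1 1 = d at *
  generalize y.1 0 0 = e at *
  generalize y.1 0 1 = f at *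
  generalize y.1 1 0 = g at *
  generalize y.1 1 1 = k at *
  have hp : h.1 0 0 - h'.1 0 0 = -(h.1 1 1 - h'.1 1 1) := by linear_combination e0
  set p := h.1 0 0 - h'.1 0 0 with hpdef
  set q := h.1 0 1 - h'.1 0 1 with hqdef
  set r := h.1 1 0 - h'.1 1 0 with hrdef
  have q1 : p * (a - d) + q * c + r * b = 0 := by
    linear_combination e1 - d * hp
  have q2 : p * (e - k) + q * g + r * f = 0 := by
    linear_combination e2 - k * hp
  have q3 : p * (a * e + b * g - c * f - d * k) + q * (c * e + d * g) + r * (a * f + b * k) = 0 := by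
    linear_combination e3 - (c * f + d * k) * hp
  set D := (a + d) ^ 2 + (e + k) ^ 2 + (a * e + b * g + (c * f + d * k)) ^ 2 -
    (a + d) * (e + k) * (a * e + b * g + (c * f + d * k)) - 2 - 2 with hD
  have hD' : D = -((a - d) * (g * (a * f + b * k) - f * (c * e + d * g)) +
      (e - k) * (-(c * (a * f + b * k) - b * (c * e + d * g))) +
      (a * e + b * g - c * f - d * k) * (c * f - b * g)) := by
    rw [hD]
    linear_combination (-(a + d) ^ 2) * hy - (e + k) ^ 2 * hx + 4 * (e * k - f * g) * hx + 4 * hy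
  have zp : D * p = 0 := by
    rw [hD']
    linear_combination (-(g * (a * f + b * k) - f * (c * e + d * g))) * q1 +
      (c * (a * f + b * k) - b * (c * e + d * g)) * q2 - (c * f - b * g) * q3
  have zq : D * q = 0 := by
    rw [hD']
    linear_combination ((e - k) * (a * f + b * k) - f * (a * e + b * g - c * f - d * k)) * q1 -
      ((a - d) * (a * f + b * k) - b * (a * e + b * g - c * f - d * k)) * q2 +
      ((a - d) * f - b * (e - k)) * q3
  have zr : D * r = 0 := by
    rw [hD']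
    linear_combination (-((e - k) * (c * e + d * g) - g * (a * e + b * g - c * f - d * k))) * q1 +
      ((a - d) * (c * e + d * g) - c * (a * e + b * g - c * f - d * k)) * q2 -
      ((a - d) * g - c * (e - k)) * q3
  have p0 : p = 0 := (mul_eq_zero.mp zp).resolve_left hk'
  have q0 : q = 0 := (mul_eq_zero.mp zq).resolve_left hk'
  have r0 : r = 0 := (mul_eq_zero.mp zr).resolve_left hk'
  have s0 : h.1 1 1 - h'.1 1 1 = 0 := by linear_combination hp - p0
  apply Subtype.ext
  ext i j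
  fin_cases i <;> fin_cases j
  · exact sub_eq_zero.mp p0
  · exact sub_eq_zero.mp q0
  · exact sub_eq_zero.mp r0
  · exact sub_eq_zero.mp s0

/-- traces of the elements with `x^k = ±1`, `1 ≤ k ≤ 120` -/
def TT (K : Type) [Field K] : Set K :=
  ⋃ k ∈ Finset.Icc 1 120, {τ : K | ∃ x : SL K, Sc (x ^ k) ∧ tr x = τ}

lemma TT_card (hTRM : Stmt_TRM) (K : Type) [Field K] [Finite K] : (TT K).ncard ≤ 14520 := by
  refine (Finset.set_ncard_biUnion_le _ _).trans ?_
  have : ∀ k ∈ Finset.Icc 1 120, ({τ : K | ∃ x : SL K, Sc (x ^ k) ∧ tr x = τ}).ncard ≤ 2 * k := by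
    intro k hk
    exact hTRM K k (Finset.mem_Icc.mp hk).1
  refine (Finset.sum_le_sum this).trans ?_
  rw [← Finset.mul_sum]
  decide

/-- lists of given length with entries in a set -/
lemma ncard_list_le {α : Type} [Finite α] (A : Set α) (d : ℕ) :
    Set.ncard {l : List α | l.length = d ∧ ∀ x ∈ l, x ∈ A} ≤ A.ncard ^ d := by
  classical
  have : Fintype α := Fintype.ofFinite α
  induction d with
  | zero =>
    have : {l : List α | l.length = 0 ∧ ∀ x ∈ l, x ∈ A} ⊆ {[]} := by
      rintro l ⟨hl, _⟩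
      exact List.length_eq_zero_iff.mp hl
    refine (Set.ncard_le_ncard this (Set.finite_singleton _)).trans ?_
    simp
  | succ d ih =>
    have hfin : ∀ n : ℕ, {l : List α | l.length = n ∧ ∀ x ∈ l, x ∈ A}.Finite := fun n =>
      (List.finite_length_eq α n).subset (fun l hl => hl.1)
    have hsub : {l : List α | l.length = d + 1 ∧ ∀ x ∈ l, x ∈ A} ⊆
        (fun w : α × List α => w.1 :: w.2) ''
          (A ×ˢ {l : List α | l.length = d ∧ ∀ x ∈ l, x ∈ A}) := by
      rintro l ⟨hl, hA⟩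
      cases l with
      | nil => simp at hl
      | cons a l =>
        refine ⟨(a, l), ⟨hA a (by simp), ?_, fun x hx => hA x (by simp [hx])⟩, rfl⟩
        simpa using hl
    refine (Set.ncard_le_ncard hsub (((Set.toFinite A).prod (hfin d)).image _)).trans ?_
    refine (Set.ncard_image_le ((Set.toFinite A).prod (hfin d))).trans ?_
    rw [Set.ncard_prod, pow_succ, mul_comm]
    exact Nat.mul_le_mul_right _ ih

/-- functions on `Fin n` with values in a set -/
lemma ncard_fun_le {α : Type} [Finite α] (A : Set α) (n : ℕ) :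
    Set.ncard {f : Fin n → α | ∀ j, f j ∈ A} ≤ A.ncard ^ n := by
  have hinj : Set.InjOn (fun f : Fin n → α => List.ofFn f) {f : Fin n → α | ∀ j, f j ∈ A} :=
    fun f _ g _ h => List.ofFn_injective h
  rw [← hinj.ncard_image]
  refine le_trans (Set.ncard_le_ncard ?_
    ((List.finite_length_eq α n).subset (fun l hl => hl.1))) (ncard_list_le A n)
  rintro _ ⟨f, hf, rfl⟩
  refine ⟨by simp, ?_⟩
  intro x hx
  rw [List.mem_ofFn] at hx
  obtain ⟨j, rfl⟩ := hx
  exact hf j

/-- TYS -/
theorem stmt_TYS (hTRM : Stmt_TRM) (hTRC : Stmt_TRC) (hTWO : Stmt_TWO) : Stmt_TYS := by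
  intro W ds _
  set t0 : ℕ := 14520 with ht0
  refine ⟨4 * t0 ^ 3 * ((t0 * t0 * (t0 * t0)) ^ ds.length * (t0 * t0 * (t0 * t0)) ^ W.n), ?_⟩
  intro K _ _
  set q := Nat.card K with hqdef
  have hq2 : 2 ≤ q := two_le_card
  have hT : (TT K).ncard ≤ t0 := TT_card hTRM K
  -- the set of pairs
  set P : Set (SL K × SL K) := {w | w.1 ∈ {x : SL K | ¬ Sc x ∧ tr x ∈ TT K} ∧
    w.2 ∈ {y : SL K | tr y ∈ TT K ∧ tr (w.1 * y) ∈ TT K}} with hP
  have hPcard : P.ncard ≤ (t0 * (q ^ 2 + q)) * (t0 * t0 * (2 * q)) := by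
    refine (ncard_prod_le (Set.toFinite _) (fun x : SL K =>
      {y : SL K | tr y ∈ TT K ∧ tr (x * y) ∈ TT K}) (fun a _ => Set.toFinite _)
      (t0 * t0 * (2 * q)) ?_).trans ?_
    · intro a ha
      have h1 : Set.ncard {y : SL K | tr y ∈ TT K ∧ tr (a * y) ∈ TT K} ≤
          ((TT K) ×ˢ (TT K)).ncard * (2 * q) := by
        apply ncard_le_mul_of_fiber (Set.toFinite _) (Set.toFinite _)
          (fun y : SL K => (tr y, tr (a * y)))
        · rintro y ⟨hy1, hy2⟩
          exact ⟨hy1, hy2⟩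
        · rintro ⟨τ, t⟩ _
          refine le_trans (Set.ncard_le_ncard ?_ (Set.toFinite _)) (hTWO K a ha.1 τ t).1
          rintro y ⟨_, hy⟩
          exact Prod.ext_iff.mp hy
      refine h1.trans (Nat.mul_le_mul_right _ ?_)
      rw [Set.ncard_prod]
      exact Nat.mul_le_mul hT hT
    · apply Nat.mul_le_mul_right
      have h1 : Set.ncard {x : SL K | ¬ Sc x ∧ tr x ∈ TT K} ≤ (TT K).ncard * (q ^ 2 + q) := by
        apply ncard_le_mul_of_fiber (Set.toFinite _) (Set.toFinite _) (fun x : SL K => tr x)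
        · rintro x ⟨_, hx⟩
          exact hx
        · intro τ _
          refine le_trans (Set.ncard_le_ncard ?_ (Set.toFinite _)) (hTRC K 1 τ one_ne_zero).2.2.2
          rintro x ⟨_, hx⟩
          exact hx
      exact h1.trans (Nat.mul_le_mul_right _ hT)
  -- the main set
  set S := {t | t ∈ Tup W ds (⊤ : Subgroup (SL K)) ∧ Nat.card (gn t) ≤ 120 ∧
      ∃ x ∈ gn t, ∃ y ∈ gn t, kp x y ≠ 2} with hS
  have htr : ∀ t ∈ S, ∀ h ∈ gn t, tr h ∈ TT K := by
    intro t ht h hh
    have hpos : 0 < Nat.card (gn t) := Nat.card_pos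
    refine Set.mem_iUnion₂.mpr ⟨Nat.card (gn t), Finset.mem_Icc.mpr ⟨hpos, ht.2.1⟩, h, ?_, rfl⟩
    left
    have := pow_card_eq_one' (x := (⟨h, hh⟩ : gn t))
    have h2 := congrArg (fun z : gn t => (z : SL K)) this
    exact h2
  have hex : ∀ t, ∃ w : SL K × SL K, t ∈ S → (w ∈ P ∧ kp w.1 w.2 ≠ 2 ∧ w.1 ∈ gn t ∧ w.2 ∈ gn t) := by
    intro t
    by_cases ht : t ∈ S
    · obtain ⟨x, hx, y, hy, hk⟩ := ht.2.2
      refine ⟨(x, y), fun _ => ⟨⟨⟨?_, htr t ht x hx⟩, htr t ht y hy,
        htr t ht _ (Subgroup.mul_mem _ hx hy)⟩, hk, hx, hy⟩⟩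
      intro hsc
      apply hk
      rcases hsc with h | h
      · have hx1 : x = 1 := h
        rw [hx1]
        unfold kp kap
        rw [tr_one, one_mul]
        ring
      · have hx1 : x = -1 := h
        rw [hx1]
        unfold kp kap
        rw [tr_neg, tr_one, neg_one_mul, tr_neg]
        ring
    · exact ⟨(1, 1), fun h => absurd h ht⟩
  choose F hF using hex
  have hSfin : S.Finite := (Tup_finite W ds ⊤).subset (fun t ht => ht.1)
  have hfib : S.ncard ≤ P.ncard *
      ((t0 * t0 * (t0 * t0)) ^ ds.length * (t0 * t0 * (t0 * t0)) ^ W.n) := by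
    apply ncard_le_mul_of_fiber hSfin (Set.toFinite _) F (fun t ht => (hF t ht).1)
    rintro ⟨x, y⟩ _
    by_cases hk : kp x y = 2
    · have : {a | a ∈ S ∧ F a = (x, y)} = ∅ := by
        apply Set.eq_empty_iff_forall_notMem.mpr
        rintro t ⟨ht, hFt⟩
        have := (hF t ht).2.1
        rw [hFt] at this
        exact this hk
      rw [this, Set.ncard_empty]
      exact Nat.zero_le _
    · set H : Set (SL K) := {h | tr h ∈ TT K ∧ tr (h * x) ∈ TT K ∧ tr (h * y) ∈ TT K ∧
        tr (h * (x * y)) ∈ TT K} with hH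
      have hHcard : H.ncard ≤ t0 * t0 * (t0 * t0) := by
        have hinj : Set.InjOn (fun h : SL K => ((tr h, tr (h * x)), (tr (h * y), tr (h * (x * y)))))
            H := by
          intro h _ h' _ he
          have e1 := (Prod.ext_iff.mp he).1
          have e2 := (Prod.ext_iff.mp he).2
          exact eq_of_traces x y h h' hk (Prod.ext_iff.mp e1).1 (Prod.ext_iff.mp e1).2
            (Prod.ext_iff.mp e2).1 (Prod.ext_iff.mp e2).2
        rw [← hinj.ncard_image]
        have hsub : (fun h : SL K => ((tr h, tr (h * x)), (tr (h * y), tr (h * (x * y))))) '' H ⊆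
            ((TT K) ×ˢ (TT K)) ×ˢ ((TT K) ×ˢ (TT K)) := by
          rintro _ ⟨h, ⟨h1, h2, h3, h4⟩, rfl⟩
          exact ⟨⟨h1, h2⟩, ⟨h3, h4⟩⟩
        refine (Set.ncard_le_ncard hsub (Set.toFinite _)).trans ?_
        rw [Set.ncard_prod, Set.ncard_prod]
        exact Nat.mul_le_mul (Nat.mul_le_mul hT hT) (Nat.mul_le_mul hT hT)
      have hsub : {a | a ∈ S ∧ F a = (x, y)} ⊆
          {l : List (SL K) | l.length = ds.length ∧ ∀ h ∈ l, h ∈ H} ×ˢ
            {f : Fin W.n → SL K | ∀ j, f j ∈ H} := by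
        rintro t ⟨ht, hFt⟩
        have hw := hF t ht
        rw [hFt] at hw
        obtain ⟨_, _, hx, hy⟩ := hw
        have hmem : ∀ h ∈ gn t, h ∈ H := fun h hh =>
          ⟨htr t ht h hh, htr t ht _ (Subgroup.mul_mem _ hh hx),
            htr t ht _ (Subgroup.mul_mem _ hh hy),
            htr t ht _ (Subgroup.mul_mem _ hh (Subgroup.mul_mem _ hx hy))⟩
        exact ⟨⟨length_of_mem_Xs ht.1.1, fun h hh => hmem h (mem_gn_left hh)⟩,
          fun j => hmem _ (mem_gn_right t j)⟩
      have hf1 : {l : List (SL K) | l.length = ds.length ∧ ∀ h ∈ l, h ∈ H}.Finite :=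
        (List.finite_length_eq (SL K) ds.length).subset (fun l hl => hl.1)
      refine (Set.ncard_le_ncard hsub (hf1.prod (Set.toFinite _))).trans ?_
      rw [Set.ncard_prod]
      exact Nat.mul_le_mul ((ncard_list_le H ds.length).trans (Nat.pow_le_pow_left hHcard _))
        ((ncard_fun_le H W.n).trans (Nat.pow_le_pow_left hHcard _))
  refine hfib.trans ?_
  have hfin : (t0 * (q ^ 2 + q)) * (t0 * t0 * (2 * q)) ≤ 4 * t0 ^ 3 * q ^ 3 := by
    have : q ^ 2 + q ≤ 2 * q ^ 2 := by nlinarith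
    calc (t0 * (q ^ 2 + q)) * (t0 * t0 * (2 * q)) ≤ (t0 * (2 * q ^ 2)) * (t0 * t0 * (2 * q)) :=
          Nat.mul_le_mul_right _ (Nat.mul_le_mul_left _ this)
      _ = 4 * t0 ^ 3 * q ^ 3 := by ring
  calc P.ncard * ((t0 * t0 * (t0 * t0)) ^ ds.length * (t0 * t0 * (t0 * t0)) ^ W.n)
      ≤ (4 * t0 ^ 3 * q ^ 3) * ((t0 * t0 * (t0 * t0)) ^ ds.length * (t0 * t0 * (t0 * t0)) ^ W.n) :=
        Nat.mul_le_mul_right _ (hPcard.trans hfin)
    _ = _ := by ring

end Pool.FG.helper20
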