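import Pool.Agent.Work.MP_65e34f.Basic

/-!
# MP_65e34f_al, block BOB (helper20)
-/

set_option autoImplicit false

namespace Pool.FG.helper20

open Matrix

/-- the equations of a Borel subgroup -/
lemma mem_Bor_iff {K : Type} [Field K] (v : Fin 2 → K) (hv : v ≠ 0) (x : SL K) :
    x ∈ Bor v hv ↔ ∃ c : K, x.1 0 0 * v 0 + x.1 0 1 * v 1 = c * v 0 ∧
      x.1 1 0 * v 0 + x.1 1 1 * v 1 = c * v 1 := by
  constructor
  · rintro ⟨c, hc⟩
    refine ⟨c, ?_, ?_⟩
    · have := congrFun hc 0
      simpa [Matrix.mulVec, dotProduct, Fin.sum_univ_two] using this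
    · have := congrFun hc 1
      simpa [Matrix.mulVec, dotProduct, Fin.sum_univ_two] using this
  · rintro ⟨c, h0, h1⟩
    refine ⟨c, ?_⟩
    ext i
    fin_cases i
    · simpa [Matrix.mulVec, dotProduct, Fin.sum_univ_two] using h0
    · simpa [Matrix.mulVec, dotProduct, Fin.sum_univ_two] using h1

/-- eigenvalue relation: `c` is a root of `c² - tr(x) c + 1` -/
lemma eig_eq {K : Type} [Field K] (v : Fin 2 → K) (hv : v ≠ 0) (x : SL K) (c : K)
    (h0 : x.1 0 0 * v 0 + x.1 0 1 * v 1 = c * v 0)
    (h1 : x.1 1 0 * v 0 + x.1 1 1 * v 1 = c * v 1) : c ^ 2 - tr x * c + 1 = 0 := by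
  have hd := det_eq x
  have e0 : (c ^ 2 - tr x * c + 1) * v 0 = 0 := by
    unfold tr
    linear_combination (x.1 1 1 - c) * h0 - x.1 0 1 * h1 - v 0 * hd
  have e1 : (c ^ 2 - tr x * c + 1) * v 1 = 0 := by
    unfold tr
    linear_combination (x.1 0 0 - c) * h1 - x.1 1 0 * h0 - v 1 * hd
  by_contra h
  apply hv
  ext i
  fin_cases i
  · exact (mul_eq_zero.mp e0).resolve_left h
  · exact (mul_eq_zero.mp e1).resolve_left h

/-- a parameter of the elements with a given eigenvalue -/
noncomputable def par {K : Type} [Field K] (v : Fin 2 → K) (x : SL K) : K :=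
  open Classical in if v 0 = 0 then x.1 1 0 else x.1 0 1

/-- elements with the same eigenvalue and the same parameter agree -/
lemma eq_of_par {K : Type} [Field K] (v : Fin 2 → K) (hv : v ≠ 0) (x y : SL K) (c : K)
    (h0 : x.1 0 0 * v 0 + x.1 0 1 * v 1 = c * v 0)
    (h1 : x.1 1 0 * v 0 + x.1 1 1 * v 1 = c * v 1)
    (k0 : y.1 0 0 * v 0 + y.1 0 1 * v 1 = c * v 0)
    (k1 : y.1 1 0 * v 0 + y.1 1 1 * v 1 = c * v 1) (hc : tr x = tr y)
    (hp : par v x = par v y) : x = y := by
  have ht : x.1 0 0 + x.1 1 1 = y.1 0 0 + y.1 1 1 := hc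
  by_cases hv0 : v 0 = 0
  · have hv1 : v 1 ≠ 0 := by
      intro h
      apply hv
      ext i
      fin_cases i
      · exact hv0
      · exact h
    have e10 : x.1 1 0 = y.1 1 0 := by simpa [par, hv0] using hp
    rw [hv0] at h0 h1 k0 k1
    have e01 : x.1 0 1 = y.1 0 1 := by
      apply mul_right_cancel₀ hv1
      linear_combination h0 - k0
    have e11 : x.1 1 1 = y.1 1 1 := by
      apply mul_right_cancel₀ hv1
      linear_combination h1 - k1
    have e00 : x.1 0 0 = y.1 0 0 := by linear_combination ht - e11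
    apply Subtype.ext
    ext i j
    fin_cases i <;> fin_cases j
    · exact e00
    · exact e01
    · exact e10
    · exact e11
  · have e01 : x.1 0 1 = y.1 0 1 := by simpa [par, hv0] using hp
    have e00 : x.1 0 0 = y.1 0 0 := by
      apply mul_right_cancel₀ hv0
      linear_combination h0 - k0 - v 1 * e01
    have e11 : x.1 1 1 = y.1 1 1 := by linear_combination ht - e00
    have e10 : x.1 1 0 = y.1 1 0 := by
      apply mul_right_cancel₀ hv0
      linear_combination h1 - k1 - v 1 * e11
    apply Subtype.ext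
    ext i j
    fin_cases i <;> fin_cases j
    · exact e00
    · exact e01
    · exact e10
    · exact e11

/-- BOB -/
theorem stmt_BOB : Stmt_BOB := by
  intro K _ _ v hv
  refine ⟨?_, ?_, ?_⟩
  · -- the eigenvalue determines the trace
    have hch : ∀ x : SL K, ∃ c : K, x ∈ Bor v hv →
        x.1 0 0 * v 0 + x.1 0 1 * v 1 = c * v 0 ∧ x.1 1 0 * v 0 + x.1 1 1 * v 1 = c * v 1 := by
      intro x
      by_cases hx : x ∈ Bor v hv
      · obtain ⟨c, hc⟩ := (mem_Bor_iff v hv x).mp hx
        exact ⟨c, fun _ => hc⟩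
      · exact ⟨0, fun h => absurd h hx⟩
    choose F hF using hch
    have hinj : Function.Injective (fun x : Bor v hv => (F x.1, par v x.1)) := by
      intro x y hxy
      have e1 : F x.1 = F y.1 := (Prod.ext_iff.mp hxy).1
      have e2 : par v x.1 = par v y.1 := (Prod.ext_iff.mp hxy).2
      obtain ⟨a0, a1⟩ := hF x.1 x.2
      obtain ⟨b0, b1⟩ := hF y.1 y.2
      rw [← e1] at b0 b1
      have c1 := eig_eq v hv x.1 _ a0 a1
      have c2 := eig_eq v hv y.1 _ b0 b1
      have hc0 : F x.1 ≠ 0 := by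
        intro h
        rw [h] at c1
        simp at c1
      have ht : tr x.1 = tr y.1 := by
        apply mul_right_cancel₀ hc0
        linear_combination c2 - c1
      exact Subtype.ext (eq_of_par v hv x.1 y.1 _ a0 a1 b0 b1 ht e2)
    have := Nat.card_le_card_of_injective _ hinj
    rw [Nat.card_prod] at this
    rw [pow_two]
    exact this
  · intro τ
    -- two eigenvalues, `q` parameters
    have hroots : Set.ncard {c : K | c ^ 2 - τ * c + 1 = 0} ≤ 2 := by
      by_cases hne : ({c : K | c ^ 2 - τ * c + 1 = 0}).Nonempty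
      · obtain ⟨c0, hc0⟩ := hne
        have hc0' : c0 ^ 2 - τ * c0 + 1 = 0 := hc0
        have : {c : K | c ^ 2 - τ * c + 1 = 0} ⊆ {c0, τ - c0} := by
          intro c hc
          have hc' : c ^ 2 - τ * c + 1 = 0 := hc
          have : (c - c0) * (c - (τ - c0)) = 0 := by linear_combination hc' - hc0'
          rcases mul_eq_zero.mp this with h | h
          · left; exact sub_eq_zero.mp h
          · right; exact sub_eq_zero.mp h
        refine (Set.ncard_le_ncard this (Set.toFinite _)).trans ?_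
        exact (Set.ncard_insert_le _ _).trans (by simp)
      · rw [Set.not_nonempty_iff_eq_empty.mp hne]
        simp
    have hch : ∀ x : SL K, ∃ c : K, x ∈ Bor v hv →
        x.1 0 0 * v 0 + x.1 0 1 * v 1 = c * v 0 ∧ x.1 1 0 * v 0 + x.1 1 1 * v 1 = c * v 1 := by
      intro x
      by_cases hx : x ∈ Bor v hv
      · obtain ⟨c, hc⟩ := (mem_Bor_iff v hv x).mp hx
        exact ⟨c, fun _ => hc⟩
      · exact ⟨0, fun h => absurd h hx⟩
    choose F hF using hch
    have hinj : Set.InjOn (fun x : SL K => (F x, par v x)) {x : SL K | x ∈ Bor v hv ∧ tr x = τ} := by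
      rintro x ⟨hx, tx⟩ y ⟨hy, ty⟩ hxy
      have e1 : F x = F y := (Prod.ext_iff.mp hxy).1
      have e2 : par v x = par v y := (Prod.ext_iff.mp hxy).2
      obtain ⟨a0, a1⟩ := hF x hx
      obtain ⟨b0, b1⟩ := hF y hy
      rw [← e1] at b0 b1
      exact eq_of_par v hv x y _ a0 a1 b0 b1 (tx.trans ty.symm) e2
    rw [← hinj.ncard_image]
    have hsub : (fun x : SL K => (F x, par v x)) '' {x : SL K | x ∈ Bor v hv ∧ tr x = τ} ⊆
        {c : K | c ^ 2 - τ * c + 1 = 0} ×ˢ Set.univ := by
      rintro _ ⟨x, ⟨hx, tx⟩, rfl⟩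
      obtain ⟨a0, a1⟩ := hF x hx
      refine ⟨?_, trivial⟩
      have := eig_eq v hv x _ a0 a1
      rw [tx] at this
      exact this
    refine (Set.ncard_le_ncard hsub (Set.toFinite _)).trans ?_
    rw [Set.ncard_prod, Set.ncard_univ]
    exact Nat.mul_le_mul_right _ hroots
  · intro a ha b hb
    obtain ⟨c, a0, a1⟩ := (mem_Bor_iff v hv a).mp ha
    obtain ⟨d, b0, b1⟩ := (mem_Bor_iff v hv b).mp hb
    have ea := eig_eq v hv a c a0 a1
    have eb := eig_eq v hv b d b0 b1
    have hab0 : (a * b).1 0 0 * v 0 + (a * b).1 0 1 * v 1 = (c * d) * v 0 := by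
      simp only [Matrix.SpecialLinearGroup.coe_mul, Matrix.mul_apply, Fin.sum_univ_two]
      linear_combination a.1 0 0 * b0 + a.1 0 1 * b1 + d * a0
    have hab1 : (a * b).1 1 0 * v 0 + (a * b).1 1 1 * v 1 = (c * d) * v 1 := by
      simp only [Matrix.SpecialLinearGroup.coe_mul, Matrix.mul_apply, Fin.sum_univ_two]
      linear_combination a.1 1 0 * b0 + a.1 1 1 * b1 + d * a1
    have eab := eig_eq v hv (a * b) (c * d) hab0 hab1
    have hc0 : c ≠ 0 := by rintro rfl; simp at ea
    have hd0 : d ≠ 0 := by rintro rfl; simp at eb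
    rw [tr_cm]
    have t1 : tr a = c + c⁻¹ := by
      field_simp
      linear_combination (-1 : K) * ea
    have t2 : tr b = d + d⁻¹ := by
      field_simp
      linear_combination (-1 : K) * eb
    have t3 : tr (a * b) = c * d + (c * d)⁻¹ := by
      field_simp
      linear_combination (-1 : K) * eab
    unfold kp kap
    rw [t1, t2, t3]
    field_simp
    ring

end Pool.FG.helper20
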